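import Pool.Agent.Y844.PT.Theta

set_option autoImplicit false

/-! Primes to the right of the points of a translate by a random integer: all lengths, and many points (the proof
follows `Pool.Agent.TH894.LH6`). -/

namespace Pool.Agent.Y844.PT
open Finset Filter
open Pool.Agent.W93.AU (Law)
open Pool.Agent.W93.DG
open Pool.Agent.W93.LM
open Pool.Agent.W301.SS
open Pool.Agent.TH646.TT
open Pool.Agent.TH894.LH

/-- few values of the random shift are exceptional -/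
theorem all_law (b F : ℕ) (hb : 2 ≤ b) (hF : 1 ≤ F) (C U : ℕ) (ε : ℝ) (hε : 0 < ε) (hε1 : ε ≤ 1 / 4) (D : ℕ) :
    ∃ κ' k₀ : ℕ, ∀ K : ℕ, k₀ ≤ K →
    ∀ (ι : Type) (Ω : Finset ι) (p : ι → ℝ) (Y : ι → ℤ), Law b F D (3 * (U + C + 5) + 6) K Ω p Y →
    (∀ ω ∈ Ω, 2 * |Y ω| ≤ ((b ^ K : ℕ) : ℤ)) →
    ∀ B : Finset ℕ, B ⊆ Icc 1 (b ^ K / 4) → ((b ^ K : ℕ) : ℝ) ≤ B.card * (K : ℝ) ^ C →
    ∀ E : ι → Prop, [DecidablePred E] → (∀ ω ∈ Ω, E ω → 0 < Y ω ∧ ∃ y : ℕ, (K : ℝ) ^ κ' ≤ y ∧ 8 * y ≤ b ^ K ∧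
      ¬ (|cs B (Y ω).toNat y * Real.log ((b ^ K : ℕ) : ℝ) - B.card * y| ≤ ε * (B.card * y) ∧
        (1 / 4 - ε) * B.card ≤ (GG B (b ^ K) (Y ω).toNat y ε).card)) →
    ∑ ω ∈ Ω, (if E ω then p ω else 0) ≤ 1 / (K : ℝ) ^ U := by
  classical
  obtain ⟨η, hη⟩ : ∃ η, η = ε / 64 := ⟨_, rfl⟩
  have hη0 : 0 < η := by rw [hη]; positivity
  have hη1 : η ≤ 1 / 64 := by rw [hη]; linarith
  obtain ⟨V, hV⟩ : ∃ V, V = U + C + 5 := ⟨_, rfl⟩
  rw [← hV]
  obtain ⟨κ, hκ⟩ := theta_law b F hb hF V D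
  obtain ⟨k0, h0⟩ := hκ κ le_rfl
  obtain ⟨n1, h1⟩ := eventually_atTop.1 (det_one (C + 1) (2 * η) (by linarith) (by linarith))
  obtain ⟨n2, h2⟩ := eventually_atTop.1 (good_many (C + 1) ε hε hε1)
  have hlr : 0 < Real.log (1 + η) := Real.log_pos (by linarith)
  obtain ⟨k3, h3⟩ := exists_nat_ge (2 / η + 4 / η + 1 / Real.log (1 + η) + 2 ^ (C + 1) + 16)
  refine ⟨2 * (C + 1 + 20) + 2 * κ + 3, k0 + n1 + n2 + k3 + b + 4, fun K hK ι Ω p Y hlaw hYX B hB hBX E _ hE => ?_⟩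
  have hb1 : 1 < b := by omega
  obtain ⟨X, hX⟩ : ∃ X, X = b ^ K := ⟨_, rfl⟩
  have hKX : K < X := by rw [hX]; exact Nat.lt_pow_self hb1
  have hX0 : (0 : ℝ) < X := by exact_mod_cast (by omega : 0 < X)
  have hbr : (2 : ℝ) ≤ b := by exact_mod_cast hb
  have hKr : (k3 : ℝ) ≤ K := by exact_mod_cast (by omega : k3 ≤ K)
  have hd1 : 0 < 2 / η := by positivity
  have hd2 : 0 < 1 / Real.log (1 + η) := by positivity
  have hd3 : (0 : ℝ) < 2 ^ (C + 1) := by positivity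
  have hd4 : 0 < 4 / η := by positivity
  have hK16 : (16 : ℝ) ≤ K := by linarith
  have hK0 : (0 : ℝ) < K := by linarith
  have hK1 : (1 : ℝ) ≤ K := by linarith
  obtain ⟨hL1, hL2⟩ := logX b K hb
  have hKb : (b : ℝ) ≤ K := by exact_mod_cast (by omega : b ≤ K)
  obtain ⟨L, hL⟩ : ∃ L, L = Real.log ((b ^ K : ℕ) : ℝ) := ⟨_, rfl⟩
  rw [← hL] at hL1 hL2
  have hL0 : 0 < L := by linarith
  have hL1' : 1 ≤ L := by linarith
  have hLK : L ≤ (K : ℝ) ^ 2 := by nlinarith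
  have hKC : (K : ℝ) ^ C ≤ L ^ (C + 1) := by
    calc (K : ℝ) ^ C ≤ (2 * L) ^ C := pow_le_pow_left₀ hK0.le (by linarith) C
      _ = 2 ^ C * L ^ C := mul_pow _ _ _
      _ ≤ L * L ^ C := by
          apply mul_le_mul_of_nonneg_right _ (by positivity)
          have : (2 : ℝ) ^ (C + 1) ≤ K := by linarith
          rw [pow_succ] at this
          linarith
      _ = L ^ (C + 1) := by rw [pow_succ]; ring
  have hBX2 : ((X : ℕ) : ℝ) ≤ B.card * Real.log (X : ℝ) ^ (C + 1) := by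
    rw [hX, ← hL]
    exact hBX.trans (mul_le_mul_of_nonneg_left hKC (Nat.cast_nonneg _))
  have hBsub : B ⊆ Icc 1 X := by
    refine hB.trans ?_
    rw [hX]
    exact Icc_subset_Icc_right (Nat.div_le_self _ _)
  have hB0 : (0 : ℝ) < B.card := by
    by_contra hcon
    have h7 : (B.card : ℝ) = 0 := le_antisymm (not_lt.1 hcon) (Nat.cast_nonneg _)
    rw [h7, zero_mul, ← hX] at hBX
    linarith
  obtain ⟨y0, hy0⟩ : ∃ y0, y0 = K ^ κ := ⟨_, rfl⟩
  have hy01 : 1 ≤ y0 := by rw [hy0]; exact Nat.one_le_pow _ _ (by omega)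
  have hy0r : (1 : ℝ) ≤ y0 := by exact_mod_cast hy01
  have hy0K : (y0 : ℝ) ≤ (K : ℝ) ^ (2 * κ) := by
    rw [hy0]
    push_cast
    exact pow_le_pow_right₀ hK1 (by omega)
  -- the grid
  obtain ⟨Jm, hJm⟩ : ∃ Jm : ℕ, Jm = K ^ 3 + 2 := ⟨_, rfl⟩
  obtain ⟨JJ, hJJ⟩ : ∃ JJ : Finset ℕ, JJ = (range Jm).image (fun j => gr η j) ∪ (range Jm).image (fun j => gr η j + 1) := ⟨_, rfl⟩
  have hJJc : (JJ.card : ℝ) ≤ (K : ℝ) ^ 4 := by
    have e1 : JJ.card ≤ Jm + Jm := by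
      rw [hJJ]
      refine (card_union_le _ _).trans (add_le_add ?_ ?_)
      · exact card_image_le.trans (le_of_eq (card_range _))
      · exact card_image_le.trans (le_of_eq (card_range _))
    have e2 : (JJ.card : ℝ) ≤ 2 * ((K : ℝ) ^ 3 + 2) := by
      have : (JJ.card : ℝ) ≤ ((Jm + Jm : ℕ) : ℝ) := by exact_mod_cast e1
      refine this.trans (le_of_eq ?_)
      rw [hJm]
      push_cast
      ring
    have e3 : (1 : ℝ) ≤ (K : ℝ) ^ 3 := one_le_pow₀ hK1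
    have e4 : (K : ℝ) ^ 4 = K * (K : ℝ) ^ 3 := by ring
    nlinarith
  obtain ⟨BB, hBB⟩ : ∃ BB : ℕ → ι → Prop, BB = fun J ω => 0 ≤ Y ω ∧ 1 ≤ J ∧ J * y0 ≤ X / 4 ∧
    ((b ^ K : ℕ) : ℝ) / (K : ℝ) ^ V < |∑ a ∈ B, av (J * y0) (a + (Y ω).toNat) - B.card| := ⟨_, rfl⟩
  have hBBc : ∀ J ∈ JJ, ∑ ω ∈ Ω, (if BB J ω then p ω else 0) ≤ 1 / (K : ℝ) ^ V := by
    intro J _
    by_cases h : 1 ≤ J ∧ J * y0 ≤ X / 4
    · apply h0 K (by omega) ι Ω p Y hlaw hYX B hB J h.1 (by rw [← hX, ← hy0]; exact h.2) (BB J)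
      intro ω _ hω
      rw [hBB] at hω
      rw [← hy0]
      exact ⟨hω.1, hω.2.2.2⟩
    · have : ∀ ω ∈ Ω, (if BB J ω then p ω else 0) = 0 := by
        intro ω _
        rw [if_neg]
        intro hω
        rw [hBB] at hω
        exact h ⟨hω.2.1, hω.2.2.1⟩
      rw [sum_congr rfl this, sum_const_zero]
      positivity
  have hsub : ∀ ω ∈ Ω, E ω → ∃ J ∈ JJ, BB J ω := by
    intro ω hω hEω
    obtain ⟨hc0, y, hy1, hy2, hnot⟩ := hE ω hω hEω
    obtain ⟨c, hc⟩ : ∃ c, c = (Y ω).toNat := ⟨_, rfl⟩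
    rw [← hc] at hnot
    have hc0' : 0 < c := by rw [hc]; omega
    have hcX : c ≤ X := by
      have h4 := hYX ω hω
      have h5 := le_abs_self (Y ω)
      have h6 : (c : ℤ) = Y ω := by rw [hc]; exact Int.toNat_of_nonneg hc0.le
      have h7 : (c : ℤ) ≤ ((b ^ K : ℕ) : ℤ) := by linarith
      rw [hX]
      exact_mod_cast h7
    by_contra hcon
    push Not at hcon
    apply hnot
    -- the error in terms of the size of `B`
    have hgood : ∀ J ∈ JJ, 1 ≤ J → J * y0 ≤ X / 4 →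
        |cs B c (J * y0) * Real.log (X : ℝ) - B.card * ((J * y0 : ℕ) : ℝ)| ≤ (2 * η) * (B.card * ((J * y0 : ℕ) : ℝ)) := by
      intro J hJ hJ1 hJ2
      have e1 := hcon J hJ
      rw [hBB] at e1
      simp only [not_and, not_lt] at e1
      have e2 := e1 hc0.le hJ1 hJ2
      rw [← hc] at e2
      have e3 : ((b ^ K : ℕ) : ℝ) / (K : ℝ) ^ V ≤ (2 * η / 8) * B.card := by
        rw [div_le_iff₀ (by positivity)]
        refine hBX.trans ?_
        have e5 : (K : ℝ) ^ C ≤ 2 * η / 8 * (K : ℝ) ^ V := by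
          have e6 : (K : ℝ) ^ V = (K : ℝ) ^ C * (K : ℝ) ^ (U + 5) := by rw [← pow_add, hV]; congr 1; ring
          rw [e6]
          have e7 : 1 ≤ η / 4 * (K : ℝ) ^ (U + 5) := by
            have e8 : (K : ℝ) ^ 1 ≤ (K : ℝ) ^ (U + 5) := pow_le_pow_right₀ hK1 (by omega)
            rw [pow_one] at e8
            have e9 : 4 / η ≤ K := by linarith
            rw [div_le_iff₀ hη0] at e9
            nlinarith
          calc (K : ℝ) ^ C = (K : ℝ) ^ C * 1 := (mul_one _).symm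
            _ ≤ (K : ℝ) ^ C * (η / 4 * (K : ℝ) ^ (U + 5)) := mul_le_mul_of_nonneg_left e7 (by positivity)
            _ = _ := by ring
        calc (B.card : ℝ) * (K : ℝ) ^ C ≤ B.card * (2 * η / 8 * (K : ℝ) ^ V) := mul_le_mul_of_nonneg_left e5 (Nat.cast_nonneg _)
          _ = _ := by ring
      have e5 : 1 ≤ J * y0 := Nat.mul_pos (by omega) (by omega)
      exact h1 X (by omega) B hBsub hBX2 c hcX (J * y0) e5 (by omega) (e2.trans e3)
    -- the position in the grid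
    obtain ⟨z, hz⟩ : ∃ z, z = y / y0 := ⟨_, rfl⟩
    have hzy : z * y0 ≤ y := by rw [hz]; exact Nat.div_mul_le_self y y0
    have hyz : y < (z + 1) * y0 := by
      rw [hz]
      have := Nat.lt_div_mul_add (a := y) (b := y0) (by omega)
      linarith
    have hκK : (K : ℝ) * y0 ≤ y := by
      refine le_trans ?_ hy1
      calc (K : ℝ) * y0 ≤ K * (K : ℝ) ^ (2 * κ) := mul_le_mul_of_nonneg_left hy0K hK0.le
        _ = (K : ℝ) ^ (2 * κ + 1) := by rw [pow_succ]; ring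
        _ ≤ _ := pow_le_pow_right₀ hK1 (by omega)
    have hy0η : (y0 : ℝ) ≤ η / 2 * y := by
      have e9 : 2 / η ≤ K := by linarith
      rw [div_le_iff₀ hη0] at e9
      nlinarith
    have hzyr : (z : ℝ) * y0 ≤ y := by exact_mod_cast hzy
    have hyzr : (y : ℝ) < ((z : ℝ) + 1) * y0 := by exact_mod_cast hyz
    have hzη : 1 / η ≤ z := by
      have e1 : (K : ℝ) < z + 1 := by
        have : (K : ℝ) * y0 < ((z : ℝ) + 1) * y0 := lt_of_le_of_lt hκK hyzr
        exact lt_of_mul_lt_mul_right this (by linarith)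
      have e2 : 2 / η = 1 / η + 1 / η := by ring
      have e3 : 64 ≤ 1 / η := by rw [le_div_iff₀ hη0]; linarith
      linarith
    have hz1 : 1 ≤ z := by
      have e3 : 64 ≤ 1 / η := by rw [le_div_iff₀ hη0]; linarith
      have : (1 : ℝ) ≤ z := by linarith
      exact_mod_cast this
    obtain ⟨j, g1, g2, g3, g4, g5⟩ := gr_mem hη0 (by linarith) z hz1 hzη
    have hyX : 8 * y ≤ X := by rw [hX]; exact hy2
    have hjJ : j + 1 < Jm := by
      have e1 : (j : ℝ) ≤ L / Real.log (1 + η) := by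
        rw [le_div_iff₀ hlr, ← Real.log_pow, hL]
        apply Real.log_le_log (by positivity)
        refine g1.trans ?_
        have : z ≤ b ^ K := by
          rw [← hX]
          have : z * 1 ≤ z * y0 := Nat.mul_le_mul_left _ hy01
          omega
        exact_mod_cast this
      have e2 : L / Real.log (1 + η) ≤ (K : ℝ) ^ 3 := by
        calc L / Real.log (1 + η) = L * (1 / Real.log (1 + η)) := by ring
          _ ≤ (K : ℝ) ^ 2 * K := mul_le_mul hLK (by linarith) hd2.le (by positivity)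
          _ = (K : ℝ) ^ 3 := by ring
      have e3 : (j : ℝ) ≤ ((K ^ 3 : ℕ) : ℝ) := by push_cast; exact e1.trans e2
      have e4 : j ≤ K ^ 3 := by exact_mod_cast e3
      omega
    have hJ1 : gr η j ∈ JJ := by
      rw [hJJ, mem_union]
      left
      exact mem_image_of_mem _ (mem_range.2 (by omega))
    have hJ2 : gr η (j + 1) + 1 ∈ JJ := by
      rw [hJJ, mem_union]
      right
      exact mem_image.2 ⟨j + 1, mem_range.2 hjJ, rfl⟩
    have hzr : (0 : ℝ) ≤ z := Nat.cast_nonneg _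
    -- the two lengths
    have l1 : gr η j * y0 ≤ y := (Nat.mul_le_mul_right _ g2).trans hzy
    have l2 : y ≤ (gr η (j + 1) + 1) * y0 := hyz.le.trans (Nat.mul_le_mul_right _ (by omega))
    have l3 : (((gr η (j + 1) + 1) * y0 : ℕ) : ℝ) ≤ (1 + 2 * η) * y := by
      push_cast
      have e1 : ((gr η (j + 1) : ℝ) + 1) * y0 ≤ ((1 + η) * z + 1) * y0 := by gcongr
      have e2 : ((1 + η) * (z : ℝ) + 1) * y0 = (1 + η) * (z * y0) + y0 := by ring
      have e3 : (1 + η) * ((z : ℝ) * y0) ≤ (1 + η) * y := mul_le_mul_of_nonneg_left hzyr (by linarith)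
      have e4 : η / 2 * (y : ℝ) ≤ η * y := by
        have : (0 : ℝ) ≤ y := Nat.cast_nonneg _
        nlinarith
      linarith
    have l4 : (1 - 2 * (2 * η)) * (y : ℝ) ≤ ((gr η j * y0 : ℕ) : ℝ) := by
      push_cast
      have e1 : ((1 - 2 * η) * (z : ℝ)) * y0 ≤ (gr η j : ℝ) * y0 := by gcongr
      have e2 : (y : ℝ) - y0 ≤ z * y0 := by linarith
      have e3 : (1 - 2 * η) * ((y : ℝ) - y0) ≤ (1 - 2 * η) * (z * y0) := mul_le_mul_of_nonneg_left e2 (by linarith)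
      have e4 : (1 - 2 * η) * (z * (y0 : ℝ)) = ((1 - 2 * η) * (z : ℝ)) * y0 := by ring
      have e5 : (0 : ℝ) ≤ y := Nat.cast_nonneg _
      nlinarith
    have hgj1 : 1 ≤ gr η j := by
      unfold gr
      apply Nat.le_floor
      push_cast
      exact one_le_pow₀ (by linarith)
    have m1 := hgood _ hJ1 hgj1 (by omega)
    have m2 := hgood _ hJ2 (by omega) (by
      have e1 : (((gr η (j + 1) + 1) * y0 : ℕ) : ℝ) ≤ 2 * y := by
        refine l3.trans ?_
        have : (0 : ℝ) ≤ y := Nat.cast_nonneg _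
        nlinarith
      have e2 : (gr η (j + 1) + 1) * y0 ≤ 2 * y := by exact_mod_cast e1
      omega)
    have hlogX0 : 0 < Real.log (X : ℝ) := by rw [hX, ← hL]; exact hL0
    have m3 := interp B c y (gr η j * y0) ((gr η (j + 1) + 1) * y0) (Real.log (X : ℝ)) (2 * η) hlogX0 (by linarith) (by linarith)
      l1 l2 l3 l4 m1 m2
    have e16 : 8 * (2 * η) = ε / 4 := by rw [hη]; ring
    rw [e16] at m3
    have hyC : Real.log (X : ℝ) ^ (C + 1 + 20) ≤ y := by
      refine le_trans ?_ hy1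
      rw [hX, ← hL]
      calc L ^ (C + 1 + 20) ≤ ((K : ℝ) ^ 2) ^ (C + 1 + 20) := pow_le_pow_left₀ hL0.le hLK _
        _ = (K : ℝ) ^ (2 * (C + 1 + 20)) := by rw [← pow_mul]
        _ ≤ _ := pow_le_pow_right₀ hK1 (by omega)
    have m4 := h2 X (by omega) B hBsub hBX2 c (mem_Icc.2 ⟨hc0', hcX⟩) y hyC m3
    rw [← hX]
    refine ⟨m3.trans ?_, m4⟩
    apply mul_le_mul_of_nonneg_right _ (by positivity)
    linarith
  have hpt : ∀ ω ∈ Ω, (if E ω then p ω else 0) ≤ ∑ J ∈ JJ, (if BB J ω then p ω else 0) := by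
    intro ω hω
    have hP0 : 0 ≤ p ω := hlaw.nonneg ω hω
    have t1 : ∀ J ∈ JJ, 0 ≤ (if BB J ω then p ω else 0) := by
      intro J _
      split_ifs
      · exact hP0
      · exact le_rfl
    by_cases hEω : E ω
    · obtain ⟨J, hJ, hBJ⟩ := hsub ω hω hEω
      rw [if_pos hEω]
      have := single_le_sum t1 hJ
      rw [if_pos hBJ] at this
      exact this
    · rw [if_neg hEω]
      exact sum_nonneg t1
  refine (sum_le_sum hpt).trans ?_
  rw [sum_comm]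
  refine (sum_le_sum hBBc).trans ?_
  rw [sum_const, nsmul_eq_mul]
  calc (JJ.card : ℝ) * (1 / (K : ℝ) ^ V) ≤ (K : ℝ) ^ 4 * (1 / (K : ℝ) ^ V) :=
        mul_le_mul_of_nonneg_right hJJc (by positivity)
    _ = (K : ℝ) ^ 4 / (K : ℝ) ^ V := by ring
    _ ≤ 1 / (K : ℝ) ^ U := by
        rw [div_le_div_iff₀ (by positivity) (by positivity), one_mul, ← pow_add]
        exact pow_le_pow_right₀ hK1 (by omega)

end Pool.Agent.Y844.PT
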