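import Pool.Agent.Y844.PT.All
import Pool.Agent.TH872.Transfer
import Pool.Agent.TH872.An3

set_option autoImplicit false

/-! Primes to the right of the points of a translate: arbitrary laws, mirror-dependent digits, rearrangements of
digits. -/

namespace Pool.Agent.Y844.PT
open Finset
open Pool.Agent.W93.AU (Law)
open Pool.Agent.W301.SS
open Pool.Agent.TH872.Mir
open Pool.Agent.TH872.An

/-- the primes to the right of the points of the translate `A + c`: the mean number is right, and there are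
many points, for all lengths between `k ^ κ'` and `B b ^ k` -/
def GoodT (ε : ℝ) (κ' b B k : ℕ) (A : Finset ℕ) (c : ℕ) : Prop :=
  ∀ y : ℕ, (k : ℝ) ^ κ' ≤ y → y ≤ B * b ^ k →
    |(∑ a ∈ A, (((Ioc (a + c) (a + c + y)).filter Nat.Prime).card : ℝ)) * Real.log ((b ^ k : ℕ) : ℝ) - A.card * y| ≤ ε * (A.card * y) ∧
    (1 / 4 - ε) * A.card ≤ ((A.filter fun a => ε / 4 * y ≤
      ((((Ioc (a + c) (a + c + y)).filter Nat.Prime).card : ℕ) : ℝ) * Real.log ((b ^ k : ℕ) : ℝ)).card : ℝ)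

/-- the bad integers -/
def BadT (ε : ℝ) (κ' b B C k : ℕ) (bad : ℤ → Prop) : Prop :=
  ∃ A : Finset ℕ, A ⊆ Icc 1 (B * b ^ k) ∧ ((b ^ k : ℕ) : ℝ) ≤ A.card * (k : ℝ) ^ C ∧
    ∀ y : ℤ, bad y → 0 < y ∧ ¬ GoodT ε κ' b B k A y.toNat

theorem pt_law (b F : ℕ) (hb : 2 ≤ b) (hF : 1 ≤ F) (e B C U : ℕ) (he : 8 * B ≤ b ^ e) (ε : ℝ) (hε : 0 < ε) (hε1 : ε ≤ 1 / 4) :
    ∃ V : ℕ, ∀ D : ℕ, ∃ κ' k₀ : ℕ, ∀ k : ℕ, k₀ ≤ k →
    ∀ (ι : Type) (Ω : Finset ι) (p : ι → ℝ) (Y : ι → ℤ), Law b F D V (k + e) Ω p Y →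
    (∀ ω ∈ Ω, 2 * |Y ω| ≤ (b : ℤ) ^ (k + e)) →
    ∀ bad : ℤ → Prop, BadT ε κ' b B C k bad →
    ∀ E : ι → Prop, [DecidablePred E] → (∀ ω ∈ Ω, E ω → bad (Y ω)) →
    ∑ ω ∈ Ω, (if E ω then p ω else 0) ≤ 1 / (k : ℝ) ^ U := by
  classical
  refine ⟨3 * (U + (C + 1) + 5) + 6, fun D => ?_⟩
  obtain ⟨κ₁, K₀, h0⟩ := all_law b F hb hF (C + 1) U (ε / 2) (by linarith) (by linarith) D
  obtain ⟨k1, hk1⟩ := exists_nat_ge (2 * e / ε + b ^ e + 2)
  refine ⟨2 * κ₁, K₀ + k1 + e + 2, fun k hk ι Ω p Y hlaw hY bad hbad E _ hE => ?_⟩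
  obtain ⟨A, hA, hAc, hb1⟩ := hbad
  obtain ⟨K, hK⟩ : ∃ K, K = k + e := ⟨_, rfl⟩
  rw [← hK] at hlaw hY
  have hkk : (k1 : ℝ) ≤ k := by exact_mod_cast (by omega : k1 ≤ k)
  have hpe : (0 : ℝ) < (b : ℝ) ^ e := by
    have : (0 : ℝ) < b := by exact_mod_cast (by omega : 0 < b)
    positivity
  have hd : 0 ≤ 2 * (e : ℝ) / ε := by positivity
  have hk2 : (2 : ℝ) ≤ k := by linarith
  have hkK : (k : ℝ) ≤ K := by exact_mod_cast (by omega : k ≤ K)
  have hK2k : (K : ℝ) ≤ 2 * k := by exact_mod_cast (by omega : K ≤ 2 * k)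
  have hXk : b ^ K = b ^ k * b ^ e := by rw [hK, pow_add]
  have hBX : 8 * (B * b ^ k) ≤ b ^ K := by
    rw [hXk]
    calc 8 * (B * b ^ k) = b ^ k * (8 * B) := by ring
      _ ≤ b ^ k * b ^ e := Nat.mul_le_mul_left _ he
  have hlogb : 0 < Real.log b := Real.log_pos (by exact_mod_cast (by omega : 1 < b))
  obtain ⟨LN, hLN⟩ : ∃ L, L = Real.log ((b ^ k : ℕ) : ℝ) := ⟨_, rfl⟩
  obtain ⟨LX, hLX⟩ : ∃ L, L = Real.log ((b ^ K : ℕ) : ℝ) := ⟨_, rfl⟩
  have hLN' : LN = k * Real.log b := by rw [hLN]; push_cast; rw [Real.log_pow]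
  have hLX' : LX = K * Real.log b := by rw [hLX]; push_cast; rw [Real.log_pow]
  have hLNX : LN ≤ LX := by rw [hLN', hLX']; exact mul_le_mul_of_nonneg_right hkK hlogb.le
  have hLX2 : LX ≤ 2 * LN := by
    rw [hLN', hLX']
    calc (K : ℝ) * Real.log b ≤ (2 * k) * Real.log b := mul_le_mul_of_nonneg_right hK2k hlogb.le
      _ = _ := by ring
  have hLN0 : 0 < LN := by rw [hLN']; positivity
  have hdiff : LX - LN ≤ ε / 2 * LX := by
    have h1 : LX - LN = e * Real.log b := by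
      rw [hLN', hLX', hK]; push_cast; ring
    have h2 : (e : ℝ) ≤ ε / 2 * k := by
      have h3 : 2 * (e : ℝ) / ε ≤ k := by linarith
      rw [div_le_iff₀ hε] at h3
      linarith
    calc LX - LN = e * Real.log b := h1
      _ ≤ (ε / 2 * k) * Real.log b := mul_le_mul_of_nonneg_right h2 hlogb.le
      _ = ε / 2 * LN := by rw [hLN']; ring
      _ ≤ _ := mul_le_mul_of_nonneg_left hLNX (by linarith)
  refine (h0 K (by omega) ι Ω p Y hlaw (fun ω hω => by push_cast; exact hY ω hω) A ?_ ?_ E ?_).trans ?_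
  · refine hA.trans (Icc_subset_Icc_right ?_)
    rw [Nat.le_div_iff_mul_le (by norm_num)]
    omega
  · have h1 : ((b ^ K : ℕ) : ℝ) = ((b ^ k : ℕ) : ℝ) * (b : ℝ) ^ e := by rw [hXk]; push_cast; ring
    rw [h1]
    have h2 : (b : ℝ) ^ e ≤ K := by linarith
    have h3 : (k : ℝ) ^ C ≤ (K : ℝ) ^ C := pow_le_pow_left₀ (by linarith) hkK C
    calc ((b ^ k : ℕ) : ℝ) * (b : ℝ) ^ e ≤ (A.card * (k : ℝ) ^ C) * K :=
          mul_le_mul hAc h2 hpe.le (by positivity)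
      _ ≤ (A.card * (K : ℝ) ^ C) * K := by gcongr
      _ = A.card * (K : ℝ) ^ (C + 1) := by rw [pow_succ]; ring
  · intro ω hω hEω
    obtain ⟨hpos, hnot⟩ := hb1 (Y ω) (hE ω hω hEω)
    refine ⟨hpos, ?_⟩
    by_contra hcon
    push Not at hcon
    apply hnot
    intro y hy1 hy2
    have hy3 : (K : ℝ) ^ κ₁ ≤ y := by
      refine le_trans ?_ hy1
      rw [pow_mul]
      apply pow_le_pow_left₀ (by linarith)
      nlinarith
    obtain ⟨g1, g2⟩ := hcon y hy3 (by omega)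
    rw [← hLX] at g1
    rw [← hLN]
    have hcs : cs A (Y ω).toNat y = ∑ a ∈ A, (((Ioc (a + (Y ω).toNat) (a + (Y ω).toNat + y)).filter Nat.Prime).card : ℝ) := by
      unfold cs
      apply sum_congr rfl
      intro a _
      rfl
    rw [hcs] at g1
    obtain ⟨S, hS⟩ : ∃ S, S = ∑ a ∈ A, (((Ioc (a + (Y ω).toNat) (a + (Y ω).toNat + y)).filter Nat.Prime).card : ℝ) := ⟨_, rfl⟩
    rw [← hS] at g1 ⊢
    obtain ⟨c, hc⟩ : ∃ c : ℝ, c = (A.card : ℝ) := ⟨_, rfl⟩
    rw [← hc] at g1 ⊢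
    have hc0 : 0 ≤ c := by rw [hc]; exact Nat.cast_nonneg _
    have hcy : 0 ≤ c * y := by positivity
    have hS0 : 0 ≤ S := by rw [hS]; exact sum_nonneg fun _ _ => Nat.cast_nonneg _
    constructor
    · rw [abs_le] at g1 ⊢
      have h4 : S * LX ≤ (1 + ε / 2) * (c * y) := by linarith [g1.2]
      constructor
      · have h5 : S * (LX - LN) ≤ ε / 2 * (S * LX) := by
          calc S * (LX - LN) ≤ S * (ε / 2 * LX) := mul_le_mul_of_nonneg_left hdiff hS0
            _ = _ := by ring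
        have h6 : ε / 2 * (S * LX) ≤ ε / 2 * ((1 + ε / 2) * (c * y)) := mul_le_mul_of_nonneg_left h4 (by linarith)
        -- the lower bound
        have h7 : S * LN = S * LX - S * (LX - LN) := by ring
        have h8 : (1 - ε / 2) * (S * LX) ≤ S * LN := by linarith
        have h9 : (1 - ε / 2) * ((1 - ε / 2) * (c * y)) ≤ (1 - ε / 2) * (S * LX) :=
          mul_le_mul_of_nonneg_left (by linarith [g1.1]) (by linarith)
        have h10 : (1 - ε) * (c * y) ≤ (1 - ε / 2) * ((1 - ε / 2) * (c * y)) := by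
          have e1 : (1 - ε / 2) * ((1 - ε / 2) * (c * y)) = (1 - ε) * (c * y) + ε ^ 2 / 4 * (c * y) := by ring
          have e2 : 0 ≤ ε ^ 2 / 4 * (c * y) := mul_nonneg (by positivity) hcy
          rw [e1]
          linarith
        linarith
      · have h5 : S * LN ≤ S * LX := mul_le_mul_of_nonneg_left hLNX hS0
        have h6 : ε / 2 * (c * y) ≤ ε * (c * y) := mul_le_mul_of_nonneg_right (by linarith) hcy
        linarith
    · have h4 : (Pool.Agent.W301.SS.GG A (b ^ K) (Y ω).toNat y (ε / 2)).card ≤ (A.filter fun a => ε / 4 * y ≤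
          ((((Ioc (a + (Y ω).toNat) (a + (Y ω).toNat + y)).filter Nat.Prime).card : ℕ) : ℝ) * LN).card := by
        apply card_le_card
        intro a ha
        unfold Pool.Agent.W301.SS.GG at ha
        rw [mem_filter] at ha ⊢
        refine ⟨ha.1, ?_⟩
        have h5 := ha.2
        rw [← hLX] at h5
        have h6 : (pn (a + (Y ω).toNat) y : ℝ) = ((((Ioc (a + (Y ω).toNat) (a + (Y ω).toNat + y)).filter Nat.Prime).card : ℕ) : ℝ) := rfl
        rw [h6] at h5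
        obtain ⟨P, hP⟩ : ∃ P : ℝ, P = ((((Ioc (a + (Y ω).toNat) (a + (Y ω).toNat + y)).filter Nat.Prime).card : ℕ) : ℝ) := ⟨_, rfl⟩
        rw [← hP] at h5 ⊢
        have hP0 : 0 ≤ P := by rw [hP]; exact Nat.cast_nonneg _
        have h7 : P * LX ≤ P * (2 * LN) := mul_le_mul_of_nonneg_left hLX2 hP0
        linarith
      have h5 : ((Pool.Agent.W301.SS.GG A (b ^ K) (Y ω).toNat y (ε / 2)).card : ℝ) ≤ ((A.filter fun a => ε / 4 * y ≤
          ((((Ioc (a + (Y ω).toNat) (a + (Y ω).toNat + y)).filter Nat.Prime).card : ℕ) : ℝ) * LN).card : ℝ) := by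
        exact_mod_cast h4
      refine le_trans ?_ h5
      refine le_trans ?_ g2
      rw [← hc]
      apply mul_le_mul_of_nonneg_right _ hc0
      linarith
  · apply one_div_le_one_div_of_le (by positivity)
    exact pow_le_pow_left₀ (by linarith) hkK U

end Pool.Agent.Y844.PT
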