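import Pool.Agent.Y844.PT.Conv
import Pool.Agent.Y844.DS.Transfer1
import Pool.Agent.Y844.DS.Cor

set_option autoImplicit false

/-! Primes to the right of the points of a translate: mirror-dependent digits, rearrangements of digits. -/

namespace Pool.Agent.Y844.PT
open Finset
open Pool.Agent.W93.AU (Law)
open Pool.Agent.TH872.Mir
open Pool.Agent.TH872.An
open Pool.Agent.Y844.DS (RareE)

lemma badT_mono {ε : ℝ} {κ₁ κ₂ b B C k : ℕ} (hk : 1 ≤ k) (hκ : κ₁ ≤ κ₂) {bad : ℤ → Prop} (h : BadT ε κ₂ b B C k bad) :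
    BadT ε κ₁ b B C k bad := by
  obtain ⟨A, hA, hAc, h1⟩ := h
  refine ⟨A, hA, hAc, fun y hy => ⟨(h1 y hy).1, fun hg => (h1 y hy).2 ?_⟩⟩
  intro z hz1 hz2
  have hk1 : (1 : ℝ) ≤ k := by exact_mod_cast hk
  exact hg z ((pow_le_pow_right₀ hk1 hκ).trans hz1) hz2

lemma eight_le (b B j : ℕ) (hb : 2 ≤ b) : 8 * B ≤ b ^ (B + j + 3) := by
  have h1 : B < b ^ (B + j) := lt_of_lt_of_le (Nat.lt_pow_self (by omega)) (Nat.pow_le_pow_right (by omega) (by omega))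
  have h2 : 8 ≤ b ^ 3 := by
    calc 8 = 2 ^ 3 := by norm_num
      _ ≤ b ^ 3 := Nat.pow_le_pow_left hb 3
  rw [pow_add, mul_comm]
  exact Nat.mul_le_mul h1.le h2

/-- mirror-dependent digits -/
theorem pt_mir (b B C U : ℕ) (hb : 2 ≤ b) (κ : ℤ) (hκ : κ ≠ 0) (η : ℝ) (hη : 0 < η) (ε : ℝ) (hε : 0 < ε) (hε1 : ε ≤ 1 / 4) :
    ∃ κ' : ℕ, RareE b B U κ η (fun k bad => BadT ε κ' b B C k bad) := by
  obtain ⟨e, he⟩ : ∃ e, e = B + 3 * κ.natAbs + 3 := ⟨_, rfl⟩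
  have he8 : 8 * B ≤ b ^ e := by rw [he]; exact eight_le b B _ hb
  obtain ⟨V, hV⟩ := pt_law b (FF0 b κ) hb (FF0_pos b κ hκ) e B C U he8 ε hε hε1
  have key : ∀ s : ℕ, s ≤ 1 → ∃ κ₁ m₀ : ℕ, ∀ m, m₀ ≤ m → ∀ w : ℕ → ℕ × ℕ → ℝ, Mirr b m η w → ∀ cc : ℤ,
      |cc| + |κ| * (2 * (b : ℤ) ^ (2 * m + s)) ≤ (b : ℤ) ^ (2 * m + s + (B + 3 * κ.natAbs)) →
      ∀ bad : ℤ → Prop, BadT ε κ₁ b B C (2 * m + s) bad → ∀ E : (Fin m → ℕ × ℕ) → Prop, [DecidablePred E] →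
      (∀ g ∈ Gs b m, E g → bad (cc + κ * (val b (2 * m + s) g : ℕ))) →
      ∑ g ∈ Gs b m, (if E g then pw w g else 0) ≤ 1 / ((2 * m + s : ℕ) : ℝ) ^ U := by
    intro s hs
    obtain ⟨D, hD⟩ := mir_law b hb η hη κ e s V
    obtain ⟨κ₁, k₀, h0⟩ := hV D
    refine ⟨κ₁, k₀ + 1, fun m hm w hw cc hcc bad hbad E _ hE => ?_⟩
    refine h0 (2 * m + s) (by omega) _ (Gs b m) (pw w)
      (fun g => cc + κ * (val b (2 * m + s) g : ℕ)) (hD m (2 * m + s + e) rfl (by omega) w hw cc) ?_ bad hbad E hE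
    intro g hg
    have h1 := val_lt b m s (by omega) g hg
    have h2 : ((val b (2 * m + s) g : ℕ) : ℤ) < 2 * (b : ℤ) ^ (2 * m + s) := by exact_mod_cast h1
    have h3 : |cc + κ * ((val b (2 * m + s) g : ℕ) : ℤ)| ≤ (b : ℤ) ^ (2 * m + s + (B + 3 * κ.natAbs)) := by
      refine (abs_add_le _ _).trans (le_trans ?_ hcc)
      rw [abs_mul, abs_of_nonneg (by positivity : (0 : ℤ) ≤ ((val b (2 * m + s) g : ℕ) : ℤ))]
      have := mul_le_mul_of_nonneg_left h2.le (abs_nonneg κ)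
      linarith
    have h8 : (b : ℤ) ^ (2 * m + s + (B + 3 * κ.natAbs)) * 2 ≤ (b : ℤ) ^ (2 * m + s + e) := by
      rw [he, show 2 * m + s + (B + 3 * κ.natAbs + 3) = (2 * m + s + (B + 3 * κ.natAbs)) + 3 by ring,
        pow_add _ _ 3]
      apply mul_le_mul_of_nonneg_left _ (by positivity)
      have : 2 ≤ b ^ 3 := le_trans hb (Nat.le_self_pow (by norm_num) b)
      exact_mod_cast this
    linarith
  obtain ⟨κ₀, m0, h0⟩ := key 0 (by norm_num)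
  obtain ⟨κ₁, m1, h1⟩ := key 1 le_rfl
  refine ⟨max κ₀ κ₁, fun s hs => ?_⟩
  have h4 : s = 0 ∨ s = 1 := by omega
  rcases h4 with rfl | rfl
  · refine ⟨m0 + 1, fun m hm w hw cc hcc bad hbad E _ hE => ?_⟩
    exact h0 m (by omega) w hw cc hcc bad (badT_mono (by omega) (le_max_left _ _) hbad) E hE
  · refine ⟨m1 + 1, fun m hm w hw cc hcc bad hbad E _ hE => ?_⟩
    exact h1 m (by omega) w hw cc hcc bad (badT_mono (by omega) (le_max_right _ _) hbad) E hE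

/-- rearrangements of digits -/
theorem pt_an (b B C U : ℕ) (hb : 2 ≤ b) (κ : ℤ) (hκ : κ ≠ 0) (η : ℝ) (hη : 0 < η) (ε : ℝ) (hε : 0 < ε) (hε1 : ε ≤ 1 / 4) :
    ∃ κ' k₀ : ℕ, ∀ k : ℕ, k₀ ≤ k → ∀ d : Fin k → ℕ, Spread b k η d →
    ∀ c : ℤ, |c| ≤ B * (b : ℤ) ^ k → ∀ bad : ℤ → Prop, BadT ε κ' b B C k bad →
    ∀ E : Equiv.Perm (Fin k) → Prop, [DecidablePred E] → (∀ σ, E σ → bad (c + κ * (V b d σ : ℕ))) →
    ((univ.filter E).card : ℝ) ≤ k.factorial / (k : ℝ) ^ U := by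
  obtain ⟨e, he⟩ : ∃ e, e = B + κ.natAbs + 3 := ⟨_, rfl⟩
  have he8 : 8 * B ≤ b ^ e := by rw [he]; exact eight_le b B _ hb
  obtain ⟨V', hV⟩ := pt_law b (FA b κ) hb (FA_pos b hb κ hκ) e B C U he8 ε hε hε1
  obtain ⟨D, K2, hD⟩ := an_law b hb η hη κ e V'
  obtain ⟨κ', k₀, h0⟩ := hV D
  refine ⟨κ', k₀ + K2 + 1, fun k hk d hd c hc bad hbad E _ hE => ?_⟩
  have h := h0 k (by omega) _ univ (fun _ => 1 / (k.factorial : ℝ)) (fun σ => c + κ * (V b d σ : ℕ))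
    (hD k (k + e) rfl (by omega) d hd c) (by
      intro σ _
      have h1 := size b B hb κ k _ (V_lt hd (by omega) σ) c hc
      have h1' : |c + κ * ((V b d σ : ℕ) : ℤ)| < (b : ℤ) ^ (k + (B + κ.natAbs)) := by
        exact_mod_cast h1
      have h8 : (b : ℤ) ^ (k + (B + κ.natAbs)) * 2 ≤ (b : ℤ) ^ (k + e) := by
        rw [he, show k + (B + κ.natAbs + 3) = (k + (B + κ.natAbs)) + 3 by ring, pow_add _ _ 3]
        apply mul_le_mul_of_nonneg_left _ (by positivity)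
        have : 2 ≤ b ^ 3 := le_trans hb (Nat.le_self_pow (by norm_num) b)
        exact_mod_cast this
      linarith) bad hbad E (fun σ _ hσ => hE σ hσ)
  refine (count_perm k E _ h).trans (le_of_eq ?_)
  rw [mul_one_div]

end Pool.Agent.Y844.PT
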