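import Pool.Agent.Y844.PT.Var
import Pool.Agent.TH894.LH6

set_option autoImplicit false

/-! The averages of `log p` over the intervals to the right of the points of a translate by an integer with an
arbitrary law. -/

namespace Pool.Agent.Y844.PT
open Finset
open Pool.Agent.H373R2.T7 (exI)
open Pool.Agent.W93.AU (Law)
open Pool.Agent.W93.DG
open Pool.Agent.W93.LM
open Pool.Agent.W301.SS
open Pool.Agent.TH646.TT
open Pool.Agent.TH894.LH

/-- the averages of `log p` over short intervals satisfy the hypotheses of `lmu_corr` -/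
theorem hyp_ua (b : ℕ) (hb : 2 ≤ b) (U₁ : ℕ) : ∃ κ₀ : ℕ, ∀ κ : ℕ, κ₀ ≤ κ → ∃ k₀ : ℕ, ∀ K : ℕ, k₀ ≤ K →
    (∀ α : ℝ, ‖∑ n ∈ Icc 1 (b ^ K), ua (K ^ κ) n * Pool.Agent.H807R2.Dav.ee ((n : ℝ) * α)‖ ≤
      ((b ^ K : ℕ) : ℝ) / Real.log ((b ^ K : ℕ) : ℝ) ^ U₁) ∧
    PP (ua (K ^ κ)) 4000000 8 (b ^ K) (b ^ (K / (16 * b))) ∧
    ∑ n ∈ Icc 1 (b ^ K), ‖ua (K ^ κ) n‖ ^ 2 ≤ (K : ℝ) ^ 4 * ((b ^ K : ℕ) : ℝ) := by
  obtain ⟨K0, n2, h2⟩ := sup_ua U₁
  obtain ⟨n3, h3⟩ := PP_ua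
  refine ⟨2 * K0, fun κ hκ => ?_⟩
  obtain ⟨k4, h4⟩ := poly_small b (κ + 3) hb
  have hb1 : 1 < b := by omega
  refine ⟨n2 + n3 + k4 + 32 * b + 4, fun K hK => ?_⟩
  obtain ⟨y, hy⟩ : ∃ y, y = K ^ κ := ⟨_, rfl⟩
  rw [← hy]
  obtain ⟨X, hX⟩ : ∃ X, X = b ^ K := ⟨_, rfl⟩
  have hKX : K < X := by rw [hX]; exact Nat.lt_pow_self hb1
  have hX1 : 1 ≤ X := by omega
  have hX0 : (0 : ℝ) < X := by exact_mod_cast hX1
  have hK0 : (0 : ℝ) < K := by exact_mod_cast (by omega : 0 < K)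
  have hK1 : (1 : ℝ) ≤ K := by exact_mod_cast (by omega : 1 ≤ K)
  have hKb : (b : ℝ) + 3 ≤ K := by exact_mod_cast (by omega : b + 3 ≤ K)
  have hbr : (2 : ℝ) ≤ b := by exact_mod_cast hb
  have hlb : Real.log b ≤ b - 1 := Real.log_le_sub_one_of_pos (by linarith)
  have hLX : Real.log X = K * Real.log b := by rw [hX]; push_cast; rw [Real.log_pow]
  have hlb0 : 0 ≤ Real.log b := Real.log_natCast_nonneg b
  have hLX2 : Real.log X + 2 ≤ (K : ℝ) ^ 2 := by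
    rw [hLX]
    nlinarith
  have hLX0 : 0 ≤ Real.log X := Real.log_natCast_nonneg X
  -- the size of y
  obtain ⟨V, hV⟩ : ∃ V, V = b ^ (K / (16 * b)) := ⟨_, rfl⟩
  have hVK : K ^ (κ + 3) ≤ V := by rw [hV]; exact h4 K (by omega)
  have hyV : y ≤ V := by
    refine le_trans ?_ hVK
    rw [hy]
    exact Nat.pow_le_pow_right (by omega) (by omega)
  have hy1 : 1 ≤ y := by rw [hy]; exact Nat.one_le_pow _ _ (by omega)
  have hK3V : K ^ 3 ≤ V := le_trans (Nat.pow_le_pow_right (by omega) (by omega)) hVK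
  have hV4 : 4 ≤ V := by
    have : 4 ≤ K ^ 3 := by
      calc 4 ≤ 4 ^ 3 := by norm_num
        _ ≤ K ^ 3 := Nat.pow_le_pow_left (by omega) 3
    omega
  have hVX : (V * V) * (V * V) ≤ X := by
    rw [hV, hX, ← pow_add, ← pow_add]
    apply Nat.pow_le_pow_right (by omega)
    have h5 : 16 * b * (K / (16 * b)) ≤ K := Nat.mul_div_le K (16 * b)
    have h6 : 4 * (K / (16 * b)) ≤ 16 * b * (K / (16 * b)) := Nat.mul_le_mul_right _ (by omega)
    omega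
  have hLV : 2 * Real.log X ≤ V := by
    have h5 : ((K ^ 3 : ℕ) : ℝ) ≤ V := by exact_mod_cast hK3V
    push_cast at h5
    nlinarith [sq_nonneg (K : ℝ)]
  have hyL : Real.log X ^ K0 ≤ y := by
    rw [hy]
    push_cast
    calc Real.log X ^ K0 ≤ ((K : ℝ) ^ 2) ^ K0 := pow_le_pow_left₀ hLX0 (by linarith) K0
      _ = (K : ℝ) ^ (2 * K0) := by rw [← pow_mul]
      _ ≤ (K : ℝ) ^ κ := pow_le_pow_right₀ hK1 hκ
  have hyX : (y : ℝ) ≤ (X : ℝ) ^ (1 / 2 : ℝ) := by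
    have h5 : (V : ℝ) * V ≤ X := by
      exact_mod_cast (Nat.le_mul_of_pos_left _ (Nat.mul_pos (by omega) (by omega))).trans hVX
    rw [← Real.sqrt_eq_rpow]
    apply Real.le_sqrt_of_sq_le
    have h6 : (y : ℝ) ≤ V := by exact_mod_cast hyV
    nlinarith [(Nat.cast_nonneg y : (0 : ℝ) ≤ y)]
  have hsup := h2 X (by omega) y hyL hyX
  have hPP := h3 X (by omega) V hV4 hVX hLV y hy1 hyV
  rw [hX] at hsup hPP
  rw [hV] at hPP
  refine ⟨hsup, hPP, ?_⟩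
  have h5 : ∀ n ∈ Icc 1 (b ^ K), ‖ua y n‖ ^ 2 ≤ (K : ℝ) ^ 4 := by
    intro n hn
    rw [mem_Icc, ← hX] at hn
    have h6 := ua_norm X y n hy1 hn.2 (by nlinarith [Nat.mul_pos (show 0 < V by omega) (show 0 < V by omega)]) hX1
    have h7 : Real.log ((2 * X : ℕ) : ℝ) + 1 ≤ (K : ℝ) ^ 2 := by
      push_cast
      rw [Real.log_mul (by norm_num) hX0.ne']
      linarith [Real.log_two_lt_d9]
    calc ‖ua y n‖ ^ 2 ≤ ((K : ℝ) ^ 2) ^ 2 := pow_le_pow_left₀ (norm_nonneg _) (h6.trans h7) 2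
      _ = (K : ℝ) ^ 4 := by rw [← pow_mul]
  refine (sum_le_sum h5).trans (le_of_eq ?_)
  rw [sum_const, Nat.card_Icc, nsmul_eq_mul, Nat.add_sub_cancel]
  ring

/-- the mean over the translate, for one length: few values of the random shift are exceptional -/
theorem theta_law (b F : ℕ) (hb : 2 ≤ b) (hF : 1 ≤ F) (V D : ℕ) : ∃ κ₀ : ℕ, ∀ κ : ℕ, κ₀ ≤ κ → ∃ k₀ : ℕ, ∀ K : ℕ, k₀ ≤ K →
    ∀ (ι : Type) (Ω : Finset ι) (p : ι → ℝ) (Y : ι → ℤ), Law b F D (3 * V + 6) K Ω p Y →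
    (∀ ω ∈ Ω, 2 * |Y ω| ≤ ((b ^ K : ℕ) : ℤ)) →
    ∀ B : Finset ℕ, B ⊆ Icc 1 (b ^ K / 4) → ∀ J : ℕ, 1 ≤ J → J * K ^ κ ≤ b ^ K / 4 →
    ∀ E : ι → Prop, [DecidablePred E] → (∀ ω ∈ Ω, E ω → 0 ≤ Y ω ∧
      ((b ^ K : ℕ) : ℝ) / (K : ℝ) ^ V < |∑ a ∈ B, av (J * K ^ κ) (a + (Y ω).toNat) - B.card|) →
    ∑ ω ∈ Ω, (if E ω then p ω else 0) ≤ 1 / (K : ℝ) ^ V := by
  classical
  obtain ⟨U₁, k1, h1⟩ := lmu_corr b F hb hF (3 * V) D
  obtain ⟨κ₀, hκ₀⟩ := hyp_ua b hb U₁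
  refine ⟨κ₀, fun κ hκ => ?_⟩
  obtain ⟨k2, h2⟩ := hκ₀ κ hκ
  refine ⟨k1 + k2 + 1, fun K hK ι Ω p Y hlaw hYX B hB J hJ hJX E _ hE => ?_⟩
  obtain ⟨hsup, hPP, hL2⟩ := h2 K (by omega)
  obtain ⟨y, hy⟩ : ∃ y, y = K ^ κ := ⟨_, rfl⟩
  have hy1 : 1 ≤ y := by rw [hy]; exact Nat.one_le_pow _ _ (by omega)
  rw [← hy] at hJX hE hsup hPP hL2
  have hJ0 : (0 : ℝ) < J := by exact_mod_cast hJ
  have hJc : (J : ℂ) ≠ 0 := by exact_mod_cast hJ0.ne'
  have hK0 : (0 : ℝ) < K := by exact_mod_cast (by omega : 0 < K)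
  have hX0 : (0 : ℝ) < ((b ^ K : ℕ) : ℝ) := by exact_mod_cast Nat.pow_pos (by omega)
  obtain ⟨g, hg⟩ : ∃ g : ℕ → ℂ, g = fun m => (∑ j ∈ range J, ∑ a ∈ B, if a + j * y = m then (1 : ℂ) else 0) / J := ⟨_, rfl⟩
  have hg1 : ∀ m, ‖g m‖ ≤ 1 := by
    intro m
    rw [hg]
    show ‖(∑ j ∈ range J, ∑ a ∈ B, if a + j * y = m then (1 : ℂ) else 0) / J‖ ≤ 1
    rw [norm_div, Complex.norm_natCast, div_le_one hJ0]
    refine (norm_sum_le _ _).trans ?_
    have h3 : ∀ j ∈ range J, ‖∑ a ∈ B, if a + j * y = m then (1 : ℂ) else 0‖ ≤ 1 := by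
      intro j _
      have h4 : ∑ a ∈ B, (if a + j * y = m then (1 : ℂ) else 0) = ((B.filter (fun a => a + j * y = m)).card : ℂ) := by
        rw [← sum_filter, sum_const, nsmul_eq_mul, mul_one]
      rw [h4, Complex.norm_natCast]
      have h5 : (B.filter (fun a => a + j * y = m)).card ≤ 1 := by
        rw [card_le_one]
        intro a ha a' ha'
        rw [mem_filter] at ha ha'
        omega
      exact_mod_cast h5
    refine (sum_le_sum h3).trans (le_of_eq ?_)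
    rw [sum_const, nsmul_eq_mul, card_range, mul_one]
  obtain ⟨N, hN⟩ : ∃ N, N = b ^ K / 2 := ⟨_, rfl⟩
  have hsum : ∀ c : ℕ, ∑ m ∈ Icc 1 N, g m * exI (ua y) ((m : ℤ) + (c : ℕ)) =
      ((∑ a ∈ B, av (J * y) (a + c) - B.card : ℝ) : ℂ) := by
    intro c
    have h3 : ∑ m ∈ Icc 1 N, g m * exI (ua y) ((m : ℤ) + (c : ℕ)) =
        (∑ j ∈ range J, ∑ a ∈ B, ua y (a + j * y + c)) / J := by
      rw [hg]
      show ∑ m ∈ Icc 1 N, ((∑ j ∈ range J, ∑ a ∈ B, if a + j * y = m then (1 : ℂ) else 0) / J) * exI (ua y) ((m : ℤ) + (c : ℕ)) = _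
      have h4 : ∀ m ∈ Icc 1 N, ((∑ j ∈ range J, ∑ a ∈ B, if a + j * y = m then (1 : ℂ) else 0) / J) * exI (ua y) ((m : ℤ) + (c : ℕ)) =
          (∑ j ∈ range J, ∑ a ∈ B, if a + j * y = m then exI (ua y) ((m : ℤ) + (c : ℕ)) else 0) / J := by
        intro m _
        rw [div_mul_eq_mul_div, sum_mul]
        congr 1
        apply sum_congr rfl
        intro j _
        rw [sum_mul]
        apply sum_congr rfl
        intro a _
        rw [ite_mul, one_mul, zero_mul]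
      rw [sum_congr rfl h4, ← sum_div, sum_comm]
      congr 1
      apply sum_congr rfl
      intro j hj
      rw [sum_comm]
      apply sum_congr rfl
      intro a ha
      rw [mem_range] at hj
      have ha' := mem_Icc.1 (hB ha)
      have h5 : j * y ≤ b ^ K / 4 := (Nat.mul_le_mul_right _ hj.le).trans hJX
      have h6 : a + j * y ∈ Icc 1 N := by
        rw [mem_Icc, hN]
        omega
      rw [sum_ite_eq, if_pos h6]
      unfold exI
      rw [if_pos (by push_cast; omega)]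
      congr 1
    rw [h3]
    have h4 : ∑ j ∈ range J, ∑ a ∈ B, ua y (a + j * y + c) = ((∑ a ∈ B, ∑ j ∈ range J, (av y (a + c + j * y) - 1) : ℝ) : ℂ) := by
      rw [sum_comm]
      push_cast
      apply sum_congr rfl
      intro a _
      apply sum_congr rfl
      intro j _
      unfold ua
      push_cast
      rw [show a + j * y + c = a + c + j * y by ring]
    have h5 : ∀ a ∈ B, ∑ j ∈ range J, (av y (a + c + j * y) - 1) = J * (av (J * y) (a + c) - 1) := by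
      intro a _
      rw [sum_sub_distrib, av_blocks y (a + c) J hy1 hJ, sum_const, nsmul_eq_mul, card_range]
      ring
    rw [h4, sum_congr rfl h5, ← mul_sum]
    push_cast
    rw [mul_div_cancel_left₀ _ hJc, sum_sub_distrib, sum_const, nsmul_eq_mul, mul_one]
  have hm := h1 K (by omega) (ua y) hsup hPP hL2 ι Ω p Y hlaw N (by
      intro ω hω
      have h3 := hYX ω hω
      have h4 := abs_nonneg (Y ω)
      have h5 := neg_abs_le (Y ω)
      have h6 := le_abs_self (Y ω)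
      have h7 : 2 * N ≤ b ^ K := by rw [hN]; exact Nat.mul_div_le _ 2
      have h8 : (2 : ℤ) * (N : ℤ) ≤ ((b ^ K : ℕ) : ℤ) := by exact_mod_cast h7
      have h9 : (0 : ℤ) < ((b ^ K : ℕ) : ℤ) := by exact_mod_cast Nat.pow_pos (by omega)
      constructor
      · linarith
      · linarith) (by rw [hN]; exact Nat.div_le_self _ _) g 1 zero_le_one (fun n _ => hg1 n)
  obtain ⟨C, hC⟩ : ∃ C : ℝ, C = (K : ℝ) ^ (2 * V) / ((b ^ K : ℕ) : ℝ) ^ 2 := ⟨_, rfl⟩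
  have hC0 : 0 ≤ C := by rw [hC]; positivity
  have hpt : ∀ ω ∈ Ω, (if E ω then p ω else 0) ≤ C * (p ω * ‖∑ n ∈ Icc 1 N, g n * exI (ua y) ((n : ℤ) + Y ω)‖ ^ 2) := by
    intro ω hω
    have hP0 : 0 ≤ p ω := hlaw.nonneg ω hω
    split_ifs with hEω
    · obtain ⟨h3, h4⟩ := hE ω hω hEω
      have h5 := hsum (Y ω).toNat
      rw [Int.toNat_of_nonneg h3] at h5
      rw [h5, Complex.norm_real, Real.norm_eq_abs]
      have h6 : (((b ^ K : ℕ) : ℝ) / (K : ℝ) ^ V) ^ 2 ≤ |∑ a ∈ B, av (J * y) (a + (Y ω).toNat) - B.card| ^ 2 :=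
        pow_le_pow_left₀ (by positivity) h4.le 2
      have h7 : C * (((b ^ K : ℕ) : ℝ) / (K : ℝ) ^ V) ^ 2 = 1 := by
        rw [hC, mul_comm 2 V, pow_mul]
        field_simp
      calc p ω = p ω * (C * (((b ^ K : ℕ) : ℝ) / (K : ℝ) ^ V) ^ 2) := by rw [h7, mul_one]
        _ ≤ p ω * (C * |∑ a ∈ B, av (J * y) (a + (Y ω).toNat) - B.card| ^ 2) := by gcongr
        _ = _ := by ring
    · positivity
  refine (sum_le_sum hpt).trans ?_
  rw [← mul_sum]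
  refine (mul_le_mul_of_nonneg_left hm hC0).trans (le_of_eq ?_)
  rw [hC, one_mul, show 3 * V = 2 * V + V by ring, pow_add]
  field_simp

end Pool.Agent.Y844.PT
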